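import Pool.Agent.H508R3.WS.Stmts

/-!
# The metric of one level
-/

set_option autoImplicit false

open Filter Topology

namespace Pool.Agent.H508R3.WS.A1x

theorem taskA1 : TaskA1 := by
  intro X _ _ R R' hcl hsym hdiag hRR δ hδ0 hδ1
  rcases isEmpty_or_nonempty X with hX | ⟨⟨x0⟩⟩
  · exact ⟨fun _ _ => 0, 1, 1, one_pos, one_pos, fun x => (hX.false x).elim,
      fun x => (hX.false x).elim, fun x => (hX.false x).elim, fun x => (hX.false x).elim,
      fun x => (hX.false x).elim, fun x => (hX.false x).elim, fun x => (hX.false x).elim,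
      fun x => (hX.false x).elim, fun x => (hX.false x).elim⟩
  have hne : R'.Nonempty := ⟨(x0, x0), interior_subset (hdiag x0)⟩
  have hcomp : IsCompact R' := hcl.isCompact
  obtain ⟨κ, hκ, hκR⟩ : ∃ κ > 0, ∀ x y : X, dist x y < κ → (x, y) ∈ R' := by
    have h1 : interior R' ∈ 𝓝ˢ (Set.diagonal X) := by
      refine isOpen_interior.mem_nhdsSet.mpr ?_
      rintro ⟨a, b⟩ hab
      have : a = b := hab
      subst this
      exact hdiag a
    rw [nhdsSet_diagonal_eq_uniformity] at h1
    obtain ⟨κ, hκ, h⟩ := Metric.mem_uniformity_dist.mp h1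
    exact ⟨κ, hκ, fun x y hxy => interior_subset (h hxy)⟩
  obtain ⟨r, hr, hrR⟩ : ∃ r > 0, ∀ p : X × X, p ∉ R → r ≤ Metric.infDist p R' := by
    obtain ⟨r, hr, h⟩ := hcomp.exists_thickening_subset_open isOpen_interior hRR
    refine ⟨r, hr, fun p hp => ?_⟩
    by_contra hcon
    push Not at hcon
    obtain ⟨y, hy, hpy⟩ := (Metric.infDist_lt_iff hne).mp hcon
    exact hp (interior_subset (h (Metric.mem_thickening_iff.mpr ⟨y, hy, hpy⟩)))
  let f : X × X → ℝ := fun p => δ * min 1 (Metric.infDist p R' / r)
  have hf0 : ∀ p, 0 ≤ f p := fun p =>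
    mul_nonneg hδ0.le (le_min zero_le_one (div_nonneg Metric.infDist_nonneg hr.le))
  have hf1 : ∀ p, f p ≤ δ := fun p => by
    have := min_le_left 1 (Metric.infDist p R' / r)
    exact mul_le_of_le_one_right hδ0.le this
  have hfR' : ∀ p, p ∈ R' → f p = 0 := fun p hp => by
    change δ * min 1 (Metric.infDist p R' / r) = 0
    rw [Metric.infDist_zero_of_mem hp, zero_div, min_eq_right zero_le_one, mul_zero]
  have hfR : ∀ p, p ∉ R → f p = δ := fun p hp => by
    change δ * min 1 (Metric.infDist p R' / r) = δ
    rw [min_eq_left ((one_le_div hr).mpr (hrR p hp)), mul_one]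
  have hfL : ∀ p q, f p ≤ f q + δ / r * dist p q := fun p q => by
    have h1 : Metric.infDist p R' ≤ Metric.infDist q R' + dist p q :=
      Metric.infDist_le_infDist_add_dist
    have h2 : Metric.infDist p R' / r ≤ Metric.infDist q R' / r + dist p q / r := by
      rw [← add_div]
      exact div_le_div_of_nonneg_right h1 hr.le
    have h3 : min 1 (Metric.infDist p R' / r) ≤
        min 1 (Metric.infDist q R' / r) + dist p q / r := by
      have h4 : 0 ≤ dist p q / r := by positivity
      rcases le_total 1 (Metric.infDist q R' / r) with h5 | h5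
      · rw [min_eq_left h5]
        exact (min_le_left _ _).trans (by linarith)
      · rw [min_eq_right h5]
        exact (min_le_right _ _).trans h2
    have h6 := mul_le_mul_of_nonneg_left h3 hδ0.le
    change δ * min 1 (Metric.infDist p R' / r) ≤ δ * min 1 (Metric.infDist q R' / r) + _
    have h7 : δ / r * dist p q = δ * (dist p q / r) := by ring
    rw [h7]
    linarith
  have hfs : ∀ x y, f (x, y) = f (y, x) := by
    have key : ∀ x y : X, Metric.infDist (y, x) R' ≤ Metric.infDist (x, y) R' := by
      intro x y
      obtain ⟨⟨a, b⟩, hab, h⟩ := hcomp.exists_infDist_eq_dist hne (x, y)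
      rw [h]
      refine (Metric.infDist_le_dist_of_mem (hsym a b hab)).trans ?_
      rw [Prod.dist_eq, Prod.dist_eq, max_comm]
    intro x y
    have h : Metric.infDist (x, y) R' = Metric.infDist (y, x) R' :=
      le_antisymm (key y x) (key x y)
    change δ * min 1 (Metric.infDist (x, y) R' / r) = δ * min 1 (Metric.infDist (y, x) R' / r)
    rw [h]
  set c : ℝ := 1 - δ with hc
  have hc0 : 0 < c := by rw [hc]; linarith
  have hc2 : 1 ≤ 2 * c := by rw [hc]; linarith
  set K : ℝ := max (2 / κ) (δ / r / c) with hK
  have hK1 : 2 / κ ≤ K := le_max_left _ _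
  have hK2 : δ / r / c ≤ K := le_max_right _ _
  have hK0 : 0 < K := lt_of_lt_of_le (by positivity) hK1
  have hKκ : 2 ≤ K * κ := by
    rw [div_le_iff₀ hκ] at hK1
    exact hK1
  have hKr : δ / r ≤ c * K := by
    rw [div_le_iff₀ hc0] at hK2
    linarith
  have hm1 : ∀ t : ℝ, min 1 (K * t) ≤ 1 := fun t => min_le_left _ _
  have hm0 : ∀ t : ℝ, 0 ≤ t → 0 ≤ min 1 (K * t) := fun t ht => le_min zero_le_one (by positivity)
  refine ⟨fun x y => c * min 1 (K * dist x y) + f (x, y), c * K + δ / r, K, by positivity, hK0,
    ?_, ?_, ?_, ?_, ?_, ?_, ?_, ?_, ?_⟩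
  · intro x
    simp only [dist_self, mul_zero]
    rw [min_eq_right zero_le_one, mul_zero, hfR' _ (interior_subset (hdiag x)), add_zero]
  · intro x y
    simp only
    rw [dist_comm x y, hfs x y]
  · intro x y z
    simp only
    have hA : 0 ≤ dist x y := dist_nonneg
    have hB : 0 ≤ dist y z := dist_nonneg
    have hC := dist_triangle x y z
    have g1 := hf0 (x, y)
    have g2 := hf0 (y, z)
    have g3 := hf1 (x, z)
    have e1 : f (x, z) ≤ f (y, z) + δ / r * dist x y := by
      have := hfL (x, z) (y, z)
      rwa [Prod.dist_eq, dist_self, max_eq_left hA] at this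
    have e2 : f (x, z) ≤ f (x, y) + δ / r * dist y z := by
      have := hfL (x, z) (x, y)
      rwa [Prod.dist_eq, dist_self, max_eq_right dist_nonneg, dist_comm z y] at this
    have i1 : δ / r * dist x y ≤ c * (K * dist x y) := by
      rw [← mul_assoc]
      exact mul_le_mul_of_nonneg_right hKr hA
    have i2 : δ / r * dist y z ≤ c * (K * dist y z) := by
      rw [← mul_assoc]
      exact mul_le_mul_of_nonneg_right hKr hB
    have j1 : c * min 1 (K * dist x z) ≤ c := mul_le_of_le_one_right hc0.le (hm1 _)
    rcases le_or_gt 1 (K * dist x y) with h1 | h1 <;> rcases le_or_gt 1 (K * dist y z) with h2 | h2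
    · rw [min_eq_left h1, min_eq_left h2]
      have : c + δ = 1 := by rw [hc]; ring
      linarith
    · rw [min_eq_left h1, min_eq_right h2.le]
      linarith
    · rw [min_eq_right h1.le, min_eq_left h2]
      linarith
    · rw [min_eq_right h1.le, min_eq_right h2.le]
      have h3 : dist x z < κ := by
        have h4 : K * dist x z < K * κ := by
          have : K * dist x z ≤ K * dist x y + K * dist y z := by
            rw [← mul_add]
            exact mul_le_mul_of_nonneg_left hC hK0.le
          linarith
        exact lt_of_mul_lt_mul_left h4 hK0.le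
      rw [hfR' _ (hκR x z h3)]
      have h5 : min 1 (K * dist x z) ≤ K * dist x y + K * dist y z := by
        refine (min_le_right _ _).trans ?_
        rw [← mul_add]
        exact mul_le_mul_of_nonneg_left hC hK0.le
      have h6 := mul_le_mul_of_nonneg_left h5 hc0.le
      rw [mul_add] at h6
      linarith
  · intro x y
    have h1 := mul_nonneg hc0.le (hm0 (dist x y) dist_nonneg)
    have h2 := hf0 (x, y)
    simp only
    linarith
  · intro x y
    have h1 : c * min 1 (K * dist x y) ≤ c := mul_le_of_le_one_right hc0.le (hm1 _)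
    have h2 := hf1 (x, y)
    simp only
    have : c + δ = 1 := by rw [hc]; ring
    linarith
  · intro x y hxy
    simp only
    have h1 : κ ≤ dist x y := by
      by_contra hcon
      push Not at hcon
      exact hxy (interior_subset (hRR (hκR x y hcon)))
    have h2 : 1 ≤ K * dist x y := by
      have := mul_le_mul_of_nonneg_left h1 hK0.le
      linarith
    rw [min_eq_left h2, hfR _ hxy, hc]
    ring
  · intro x y hxy
    simp only
    rw [hfR' _ hxy, add_zero]
    exact mul_le_of_le_one_right hc0.le (hm1 _)
  · intro x y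
    simp only
    have h1 : f (x, y) ≤ δ / r * dist x y := by
      have := hfL (x, y) (x, x)
      rw [hfR' _ (interior_subset (hdiag x)), zero_add, Prod.dist_eq, dist_self,
        max_eq_right dist_nonneg, dist_comm y x] at this
      exact this
    have h2 : c * min 1 (K * dist x y) ≤ c * (K * dist x y) :=
      mul_le_mul_of_nonneg_left (min_le_right _ _) hc0.le
    rw [add_mul]
    linarith
  · intro x y
    simp only
    have := hf0 (x, y)
    linarith

end Pool.Agent.H508R3.WS.A1x
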