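import Pool.Agent.H508R3.WS.Stmts

/-!
# The plateau metric
-/

set_option autoImplicit false

open Filter Topology

namespace Pool.Agent.H508R3.WS

section
variable {X : Type} [MetricSpace X] [CompactSpace X]

/-- the properties of one level -/
def Lev (P : Set (X × X) → Set (X × X) → Prop) (n : ℕ) (Λ : ℝ) (R R' : Set (X × X))
    (e : X → X → ℝ) (L K : ℝ) : Prop :=
  P R R' ∧ (∀ x y, (x, y) ∈ R → dist x y < (1 / ((n : ℝ) + 2)) / Λ) ∧ 0 < L ∧ 0 < K ∧
    (∀ x, e x x = 0) ∧ (∀ x y, e x y = e y x) ∧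
    (∀ x y z, e x z ≤ e x y + e y z) ∧ (∀ x y, 0 ≤ e x y) ∧ (∀ x y, e x y ≤ 1) ∧
    (∀ x y, (x, y) ∉ R → e x y = 1) ∧ (∀ x y, (x, y) ∈ R' → e x y ≤ 1 - 1 / ((n : ℝ) + 2)) ∧
    (∀ x y, e x y ≤ L * dist x y) ∧
    (∀ x y, (1 - 1 / ((n : ℝ) + 2)) * min 1 (K * dist x y) ≤ e x y)

theorem exists_seq (hA1 : TaskA1) (P : Set (X × X) → Set (X × X) → Prop)
    (hP : ∀ R R', P R R' → IsClosed R' ∧ (∀ x y, (x, y) ∈ R' → (y, x) ∈ R') ∧
      (∀ x : X, (x, x) ∈ interior R') ∧ R' ⊆ interior R)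
    (hs : ∀ η : ℝ, 0 < η → ∃ R R', P R R' ∧ ∀ x y, (x, y) ∈ R → dist x y < η) :
    ∃ (Λ : ℕ → ℝ) (R R' : ℕ → Set (X × X)) (e : ℕ → X → X → ℝ) (L K : ℕ → ℝ),
      (∀ n, 0 < Λ n) ∧ Monotone Λ ∧ (∀ n, L n ≤ Λ (n + 1)) ∧
      ∀ n, Lev P n (Λ n) (R n) (R' n) (e n) (L n) (K n) := by
  have step : ∀ (n : ℕ) (Λ : {Λ : ℝ // 0 < Λ}), ∃ (R R' : Set (X × X)) (e : X → X → ℝ) (L K : ℝ),
      Lev P n Λ.1 R R' e L K := by
    intro n Λ
    have hn : (0 : ℝ) < (n : ℝ) + 2 := by positivity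
    obtain ⟨R, R', h1, h2⟩ := hs ((1 / ((n : ℝ) + 2)) / Λ.1) (by have := Λ.2; positivity)
    obtain ⟨p1, p2, p3, p4⟩ := hP R R' h1
    obtain ⟨e, L, K, q1, q2, q3, q4, q5, q6, q7, q8, q9, q10, q11⟩ :=
      hA1 X R R' p1 p2 p3 p4 (1 / ((n : ℝ) + 2)) (by positivity)
        (by apply one_div_le_one_div_of_le (by norm_num); have : (0 : ℝ) ≤ n := by positivity
            linarith)
    exact ⟨R, R', e, L, K, h1, h2, q1, q2, q3, q4, q5, q6, q7, q8, q9, q10, q11⟩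
  choose R R' e L K hL using step
  let Λ : ℕ → {Λ : ℝ // 0 < Λ} := fun n => Nat.rec ⟨1, one_pos⟩
    (fun n l => ⟨max l.1 (L n l), lt_max_of_lt_left l.2⟩) n
  have hsucc : ∀ n, (Λ (n + 1)).1 = max (Λ n).1 (L n (Λ n)) := fun n => rfl
  refine ⟨fun n => (Λ n).1, fun n => R n (Λ n), fun n => R' n (Λ n), fun n => e n (Λ n),
    fun n => L n (Λ n), fun n => K n (Λ n), fun n => (Λ n).2, ?_, ?_, fun n => hL n (Λ n)⟩
  · refine monotone_nat_of_le_succ fun n => ?_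
    change (Λ n).1 ≤ (Λ (n + 1)).1
    rw [hsucc]
    exact le_max_left _ _
  · intro n
    change L n (Λ n) ≤ (Λ (n + 1)).1
    rw [hsucc]
    exact le_max_right _ _

theorem taskA2' (hA1 : TaskA1) (P : Set (X × X) → Set (X × X) → Prop)
    (hP : ∀ R R', P R R' → IsClosed R' ∧ (∀ x y, (x, y) ∈ R' → (y, x) ∈ R') ∧
      (∀ x : X, (x, x) ∈ interior R') ∧ R' ⊆ interior R)
    (hs : ∀ η : ℝ, 0 < η → ∃ R R', P R R' ∧ ∀ x y, (x, y) ∈ R → dist x y < η) :
    ∃ D : X → X → ℝ, Compat D ∧ (∀ x y, D x y ≤ 1) ∧ ∀ ε : ℝ, 0 < ε → ε < 1 →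
      ∃ R R', P R R' ∧ R' ⊆ Le D ε ∧ Le D ε ⊆ R := by
  obtain ⟨Λ, R, R', e, L, K, hΛ, hmono, hLΛ, hLev⟩ := exists_seq hA1 P hP hs
  have ha0 : ∀ n : ℕ, (0 : ℝ) < 1 / ((n : ℝ) + 1) := fun n => by positivity
  have ha1 : ∀ n : ℕ, (1 : ℝ) / ((n : ℝ) + 1) ≤ 1 := fun n => by
    rw [div_le_one (by positivity)]
    have : (0 : ℝ) ≤ n := by positivity
    linarith
  have haa : ∀ m n : ℕ, m ≤ n → (1 : ℝ) / ((n : ℝ) + 1) ≤ 1 / ((m : ℝ) + 1) := fun m n h => by
    apply one_div_le_one_div_of_le (by positivity)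
    have : (m : ℝ) ≤ n := by exact_mod_cast h
    linarith
  have he0 : ∀ n x y, 0 ≤ e n x y := fun n => (hLev n).2.2.2.2.2.2.2.1
  have he1 : ∀ n x y, e n x y ≤ 1 := fun n => (hLev n).2.2.2.2.2.2.2.2.1
  have heself : ∀ n x, e n x x = 0 := fun n => (hLev n).2.2.2.2.1
  have hesymm : ∀ n x y, e n x y = e n y x := fun n => (hLev n).2.2.2.2.2.1
  have hetri : ∀ n x y z, e n x z ≤ e n x y + e n y z := fun n => (hLev n).2.2.2.2.2.2.1
  have heL : ∀ n x y, e n x y ≤ L n * dist x y := fun n => (hLev n).2.2.2.2.2.2.2.2.2.2.2.1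
  have hae1 : ∀ (n : ℕ) x y, 1 / ((n : ℝ) + 1) * e n x y ≤ 1 / ((n : ℝ) + 1) := fun n x y =>
    mul_le_of_le_one_right (ha0 n).le (he1 n x y)
  have hae2 : ∀ (n : ℕ) x y, 1 / ((n : ℝ) + 1) * e n x y ≤ e n x y := fun n x y =>
    mul_le_of_le_one_left (he0 n x y) (ha1 n)
  have hlow : ∀ m n x y, n < m → e n x y ≤ Λ m * dist x y := fun m n x y h =>
    (heL n x y).trans (mul_le_mul_of_nonneg_right ((hLΛ n).trans (hmono h)) dist_nonneg)
  let D : X → X → ℝ := fun x y => ⨆ n : ℕ, 1 / ((n : ℝ) + 1) * e n x y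
  have hbdd : ∀ x y, BddAbove (Set.range fun n : ℕ => 1 / ((n : ℝ) + 1) * e n x y) := fun x y => by
    refine ⟨1, ?_⟩
    rintro _ ⟨n, rfl⟩
    exact (hae1 n x y).trans (ha1 n)
  have hDge : ∀ (n : ℕ) x y, 1 / ((n : ℝ) + 1) * e n x y ≤ D x y := fun n x y => le_ciSup (hbdd x y) n
  have hDle : ∀ x y c, (∀ n : ℕ, 1 / ((n : ℝ) + 1) * e n x y ≤ c) → D x y ≤ c := fun x y c h =>
    ciSup_le h
  have hK0 : 0 < K 0 := (hLev 0).2.2.2.1
  have hD0 : ∀ x y, 1 / 2 * min 1 (K 0 * dist x y) ≤ D x y := fun x y => by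
    have h1 := (hLev 0).2.2.2.2.2.2.2.2.2.2.2.2 x y
    have h2 := hDge 0 x y
    norm_num at h1 h2 ⊢
    linarith
  refine ⟨D, ⟨?_, ?_, ?_, ?_, ?_⟩, fun x y => hDle x y 1 fun n => (hae1 n x y).trans (ha1 n), ?_⟩
  · intro x
    have h1 : D x x = ⨆ _n : ℕ, (0 : ℝ) := by
      change (⨆ n : ℕ, 1 / ((n : ℝ) + 1) * e n x x) = _
      simp_rw [heself, mul_zero]
    rw [h1, ciSup_const]
  · intro x y hxy
    have h1 := dist_pos.mpr hxy
    have h2 : 0 < min 1 (K 0 * dist x y) := lt_min one_pos (by positivity)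
    have := hD0 x y
    linarith
  · intro x y
    change (⨆ n : ℕ, 1 / ((n : ℝ) + 1) * e n x y) = ⨆ n : ℕ, 1 / ((n : ℝ) + 1) * e n y x
    simp_rw [fun n => hesymm n x y]
  · intro x y z
    refine hDle x z _ fun n => ?_
    have h1 := mul_le_mul_of_nonneg_left (hetri n x y z) (ha0 n).le
    rw [mul_add] at h1
    linarith [hDge n x y, hDge n y z]
  · intro x s
    constructor
    · intro h
      obtain ⟨ρ, hρ, hb⟩ := Metric.mem_nhds_iff.mp h
      have h3 : 0 < min 1 (K 0 * ρ) := lt_min one_pos (by positivity)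
      refine ⟨1 / 2 * min 1 (K 0 * ρ), by positivity, fun y hy => hb ?_⟩
      rw [Metric.mem_ball, dist_comm]
      by_contra hcon
      push Not at hcon
      have h4 : min 1 (K 0 * ρ) ≤ min 1 (K 0 * dist x y) :=
        min_le_min_left _ (mul_le_mul_of_nonneg_left hcon hK0.le)
      have h5 := hD0 x y
      have h6 : D x y < 1 / 2 * min 1 (K 0 * ρ) := hy
      linarith
    · rintro ⟨r, hr, hrs⟩
      obtain ⟨N, hN⟩ := exists_nat_one_div_lt (show (0 : ℝ) < r / 2 by positivity)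
      have hΛN := hΛ N
      refine Metric.mem_nhds_iff.mpr ⟨r / (2 * Λ N), by positivity, fun y hy => hrs ?_⟩
      rw [Metric.mem_ball, dist_comm] at hy
      have h7 : D x y ≤ r / 2 := by
        refine hDle x y _ fun n => ?_
        rcases lt_or_ge n N with h | h
        · refine (hae2 n x y).trans ((hlow N n x y h).trans ?_)
          have h8 : Λ N * dist x y ≤ Λ N * (r / (2 * Λ N)) :=
            mul_le_mul_of_nonneg_left hy.le hΛN.le
          have h9 : Λ N * (r / (2 * Λ N)) = r / 2 := by field_simp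
          linarith
        · exact (hae1 n x y).trans ((haa N n h).trans hN.le)
      change D x y < r
      linarith
  · intro ε hε hε1
    have hex : ∃ n : ℕ, 1 / ((n : ℝ) + 1) ≤ ε := by
      obtain ⟨N, hN⟩ := exists_nat_one_div_lt hε
      exact ⟨N, hN.le⟩
    classical
    obtain ⟨m, hm⟩ : ∃ m, Nat.find hex = m + 1 := by
      refine Nat.exists_eq_succ_of_ne_zero fun h => ?_
      have := Nat.find_spec hex
      rw [h] at this
      norm_num at this
      linarith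
    have hm1 : 1 / (((m + 1 : ℕ) : ℝ) + 1) ≤ ε := by
      have := Nat.find_spec hex
      rwa [hm] at this
    have hm2 : ε < 1 / ((m : ℝ) + 1) := by
      have := Nat.find_min hex (show m < Nat.find hex by rw [hm]; exact Nat.lt_succ_self m)
      push Not at this
      exact this
    have hm3 : 1 / ((m : ℝ) + 2) ≤ ε := by
      have h : (((m + 1 : ℕ) : ℝ) + 1) = (m : ℝ) + 2 := by push_cast; ring
      rwa [h] at hm1
    obtain ⟨hPm, hRd, -, -, -, -, -, -, -, hoff, hon, -, -⟩ := hLev m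
    refine ⟨R m, R' m, hPm, ?_, ?_⟩
    · rintro ⟨x, y⟩ hxy
      change D x y ≤ ε
      refine hDle x y _ fun n => ?_
      rcases lt_trichotomy n m with h | h | h
      · have h1 : (x, y) ∈ R m := interior_subset ((hP _ _ hPm).2.2.2 hxy)
        have h2 := hRd x y h1
        have hΛm := hΛ m
        have h3 : Λ m * dist x y ≤ Λ m * ((1 / ((m : ℝ) + 2)) / Λ m) :=
          mul_le_mul_of_nonneg_left h2.le hΛm.le
        have h4 : Λ m * ((1 / ((m : ℝ) + 2)) / Λ m) = 1 / ((m : ℝ) + 2) := by field_simp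
        have h5 := hae2 n x y
        have h6 := hlow m n x y h
        linarith
      · subst h
        have h1 := hon x y hxy
        have h2 := mul_le_mul_of_nonneg_left h1 (ha0 n).le
        have h3 : 1 / ((n : ℝ) + 1) * (1 - 1 / ((n : ℝ) + 2)) = 1 / ((n : ℝ) + 2) := by
          field_simp
          ring
        linarith
      · exact (hae1 n x y).trans ((haa (m + 1) n h).trans hm1)
    · rintro ⟨x, y⟩ hxy
      by_contra hcon
      have h1 := hoff x y hcon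
      have h2 := hDge m x y
      rw [h1, mul_one] at h2
      have h3 : D x y ≤ ε := hxy
      linarith

end

theorem taskA2 (hA1 : TaskA1) : TaskA2 := fun _ _ _ P hP hs => taskA2' hA1 P hP hs

end Pool.Agent.H508R3.WS
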