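import Pool.Agent.H508R3.WS.Stmts

/-!
# Bowen metrics and the trivial scales
-/

set_option autoImplicit false

open Filter Topology

namespace Pool.Agent.H508R3.WS

section
variable {X : Type}

theorem rate_of_le_one (a : ℕ → ℕ) (h : ∀ T, a T ≤ 1) : Rate a 0 := by
  have h1 : ∀ T : ℕ, Real.log (a T) / T = 0 := by
    intro T
    have h2 := h T
    have h3 : Real.log (a T) = 0 := by
      rcases Nat.le_one_iff_eq_zero_or_eq_one.mp h2 with h4 | h4 <;> simp [h4]
    rw [h3, zero_div]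
  unfold Rate
  simp_rw [h1]
  exact tendsto_const_nhds

theorem sepN_univ (R : Set (X × X)) (hR : ∀ p, p ∈ R) (F : X → X) (T : ℕ) : sepN R F T ≤ 1 := by
  refine csSup_le ⟨0, ∅, fun x hx => absurd hx (Finset.notMem_empty x), rfl⟩ ?_
  rintro n ⟨E, hE, rfl⟩
  rw [Finset.card_le_one]
  intro x hx y hy
  by_contra hxy
  obtain ⟨t, _, ht⟩ := hE x hx y hy hxy
  exact ht (hR _)

theorem spanN_univ (R : Set (X × X)) (hR : ∀ p, p ∈ R) (F : X → X) (T : ℕ) : spanN R F T ≤ 1 := by
  rcases isEmpty_or_nonempty X with hX | ⟨⟨x0⟩⟩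
  · have h0 : spanN R F T ≤ 0 :=
      Nat.sInf_le ⟨(∅ : Finset X), fun x => (hX.false x).elim, Finset.card_empty⟩
    omega
  · exact Nat.sInf_le ⟨{x0}, fun x => ⟨x0, Finset.mem_singleton_self x0, fun t _ => hR _⟩,
      Finset.card_singleton x0⟩

/-- all scales -/
theorem good_of_stable' (hA2 : TaskA2) (hA3 : TaskA3) {X : Type} [MetricSpace X] [CompactSpace X]
    (F : X → X) (hF : Continuous F) (hS : Stable X F) :
    ∃ D : X → X → ℝ, Compat D ∧ ∀ ε : ℝ, 0 < ε → ∃ h h' : ℝ,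
      Rate (sepN (Le D ε) F) h ∧ Rate (spanN (Le D ε) F) h' := by
  obtain ⟨D, hD, h1, h2⟩ := good_of_stable hA2 hA3 F hF hS
  refine ⟨D, hD, fun ε hε => ?_⟩
  rcases lt_or_ge ε 1 with h | h
  · obtain ⟨c, h3, h4⟩ := h2 ε hε h
    exact ⟨c, c, h4, h3⟩
  · have h3 : ∀ p : X × X, p ∈ Le D ε := fun p => (h1 p.1 p.2).trans h
    exact ⟨0, 0, rate_of_le_one _ fun T => sepN_univ _ h3 F T,
      rate_of_le_one _ fun T => spanN_univ _ h3 F T⟩

/-- zero entropy is attained -/
theorem zero_stable (hC : TaskC) {X : Type} [MetricSpace X] [CompactSpace X] (F : X → X)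
    (hF : Continuous F) (hle : ∀ ε T, spanN (Le (fun x y : X => dist x y) ε) F T ≤
      sepN (Le (fun x y : X => dist x y) ε) F T)
    (h : ∀ ε : ℝ, 0 < ε → Rate (sepN (Le (fun x y : X => dist x y) ε) F) 0) : Stable X F := by
  refine hC X F hF 1 0 one_pos ?_ fun ε hε h' hh' => (h ε hε).eventually_lt_const hh'
  refine tendsto_of_tendsto_of_tendsto_of_le_of_le tendsto_const_nhds (h 1 one_pos) ?_ ?_
  · intro T
    exact div_nonneg (Real.log_natCast_nonneg _) (Nat.cast_nonneg _)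
  · intro T
    refine div_le_div_of_nonneg_right ?_ (Nat.cast_nonneg _)
    rcases Nat.eq_zero_or_pos (spanN (Le (fun x y : X => dist x y) 1) F T) with h0 | h0
    · rw [h0]
      simpa using Real.log_natCast_nonneg _
    · exact Real.log_le_log (by exact_mod_cast h0) (by exact_mod_cast hle 1 T)

end

end Pool.Agent.H508R3.WS
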