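import Mathlib

/-!
# Metrics with convergent separation and spanning growth rates: definitions and statements
-/

set_option autoImplicit false

open Filter Topology

namespace Pool.Agent.H508R3.WS

/-- `E` is separated by `R` in time `T` -/
def Sep {X : Type} (R : Set (X × X)) (F : X → X) (T : ℕ) (E : Finset X) : Prop :=
  ∀ x ∈ E, ∀ y ∈ E, x ≠ y → ∃ t < T, (F^[t] x, F^[t] y) ∉ R

/-- `S` is spanning for `R` in time `T` -/
def Span {X : Type} (R : Set (X × X)) (F : X → X) (T : ℕ) (S : Finset X) : Prop :=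
  ∀ x, ∃ y ∈ S, ∀ t < T, (F^[t] x, F^[t] y) ∈ R

/-- the largest cardinality of a separated set -/
noncomputable def sepN {X : Type} (R : Set (X × X)) (F : X → X) (T : ℕ) : ℕ :=
  sSup {n | ∃ E : Finset X, Sep R F T E ∧ E.card = n}

/-- the smallest cardinality of a spanning set -/
noncomputable def spanN {X : Type} (R : Set (X × X)) (F : X → X) (T : ℕ) : ℕ :=
  sInf {n | ∃ S : Finset X, Span R F T S ∧ S.card = n}

/-- growth rate `h` of a sequence of cardinalities -/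
def Rate (a : ℕ → ℕ) (h : ℝ) : Prop :=
  Tendsto (fun T : ℕ => Real.log (a T) / T) atTop (𝓝 h)

/-- `D` is a metric inducing the topology of `X` -/
structure Compat {X : Type} [TopologicalSpace X] (D : X → X → ℝ) : Prop where
  self : ∀ x, D x x = 0
  pos : ∀ x y, x ≠ y → 0 < D x y
  symm : ∀ x y, D x y = D y x
  tri : ∀ x y z, D x z ≤ D x y + D y z
  nhds : ∀ (x : X) (s : Set X), s ∈ 𝓝 x ↔ ∃ r : ℝ, 0 < r ∧ {y | D x y < r} ⊆ s

/-- the closed `ε`-neighbourhood of the diagonal for `D` -/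
def Le {X : Type} (D : X → X → ℝ) (ε : ℝ) : Set (X × X) := {p | D p.1 p.2 ≤ ε}

/-- scale-stability: arbitrarily small neighbourhoods `R' ⊆ R` of the diagonal with the same rate -/
def Stable (X : Type) [MetricSpace X] (F : X → X) : Prop :=
  ∀ η : ℝ, 0 < η → ∃ (R R' : Set (X × X)) (h : ℝ), IsClosed R' ∧ (∀ x y, (x, y) ∈ R' → (y, x) ∈ R') ∧
    (∀ x y, (x, y) ∈ R → (y, x) ∈ R) ∧
    (∀ x : X, (x, x) ∈ interior R') ∧ R' ⊆ interior R ∧ (∀ x y, (x, y) ∈ R → dist x y < η) ∧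
    Rate (spanN R F) h ∧ Rate (sepN R' F) h

/-- the metric of one level -/
def TaskA1 : Prop := ∀ (X : Type) [MetricSpace X] [CompactSpace X] (R R' : Set (X × X)),
  IsClosed R' → (∀ x y, (x, y) ∈ R' → (y, x) ∈ R') → (∀ x : X, (x, x) ∈ interior R') →
  R' ⊆ interior R → ∀ δ : ℝ, 0 < δ → δ ≤ 1 / 2 →
  ∃ (e : X → X → ℝ) (L K : ℝ), 0 < L ∧ 0 < K ∧ (∀ x, e x x = 0) ∧ (∀ x y, e x y = e y x) ∧
    (∀ x y z, e x z ≤ e x y + e y z) ∧ (∀ x y, 0 ≤ e x y) ∧ (∀ x y, e x y ≤ 1) ∧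
    (∀ x y, (x, y) ∉ R → e x y = 1) ∧ (∀ x y, (x, y) ∈ R' → e x y ≤ 1 - δ) ∧
    (∀ x y, e x y ≤ L * dist x y) ∧ (∀ x y, (1 - δ) * min 1 (K * dist x y) ≤ e x y)

/-- the metric: levels `n` with heights `1 / (n + 1)` -/
def TaskA2 : Prop := ∀ (X : Type) [MetricSpace X] [CompactSpace X]
  (P : Set (X × X) → Set (X × X) → Prop),
  (∀ R R', P R R' → IsClosed R' ∧ (∀ x y, (x, y) ∈ R' → (y, x) ∈ R') ∧
    (∀ x : X, (x, x) ∈ interior R') ∧ R' ⊆ interior R) →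
  (∀ η : ℝ, 0 < η → ∃ R R', P R R' ∧ ∀ x y, (x, y) ∈ R → dist x y < η) →
  ∃ D : X → X → ℝ, Compat D ∧ (∀ x y, D x y ≤ 1) ∧ ∀ ε : ℝ, 0 < ε → ε < 1 →
    ∃ R R', P R R' ∧ R' ⊆ Le D ε ∧ Le D ε ⊆ R

/-- comparison of the counting functions -/
def TaskA3 : Prop := ∀ (X : Type) [MetricSpace X] [CompactSpace X] (F : X → X), Continuous F →
  ∀ (R W R' : Set (X × X)) (h : ℝ), IsClosed R' → (∀ x : X, (x, x) ∈ interior R') → R' ⊆ W → W ⊆ R →
  (∀ x y, (x, y) ∈ W → (y, x) ∈ W) →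
  Rate (spanN R F) h → Rate (sepN R' F) h → Rate (spanN W F) h ∧ Rate (sepN W F) h

/-- zero-dimensional systems are scale-stable -/
def TaskB : Prop := ∀ (X : Type) [MetricSpace X] [CompactSpace X] [TotallyDisconnectedSpace X]
  (F : X → X), Continuous F → Stable X F

/-- systems whose entropy is attained at a scale are scale-stable -/
def TaskC : Prop := ∀ (X : Type) [MetricSpace X] [CompactSpace X] (F : X → X), Continuous F →
  ∀ (δ h : ℝ), 0 < δ → Rate (spanN (Le (fun x y : X => dist x y) δ) F) h →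
  (∀ ε : ℝ, 0 < ε → ∀ h' : ℝ, h < h' →
    ∀ᶠ T : ℕ in atTop, Real.log (sepN (Le (fun x y : X => dist x y) ε) F T) / T < h') →
  Stable X F

/-- an inverse limit of scale-stable systems is scale-stable -/
def TaskD : Prop := ∀ (X : Type) [MetricSpace X] [CompactSpace X] (F : X → X), Continuous F →
  ∀ (Y : ℕ → Type) [∀ n, MetricSpace (Y n)] [∀ n, CompactSpace (Y n)] (G : ∀ n, Y n → Y n)
    (π : ∀ n, X → Y n) (θ : ∀ n, Y (n + 1) → Y n), (∀ n, Continuous (G n)) →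
    (∀ n, Continuous (π n)) → (∀ n, Function.Surjective (π n)) → (∀ n, Continuous (θ n)) →
    (∀ n x, π n (F x) = G n (π n x)) → (∀ n x, π n x = θ n (π (n + 1) x)) →
    (∀ x y, (∀ n, π n x = π n y) → x = y) → (∀ n, Stable (Y n) (G n)) → Stable X F

/-- the conclusion for scale-stable systems -/
theorem good_of_stable (hA2 : TaskA2) (hA3 : TaskA3) {X : Type} [MetricSpace X] [CompactSpace X]
    (F : X → X) (hF : Continuous F) (hS : Stable X F) :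
    ∃ D : X → X → ℝ, Compat D ∧ (∀ x y, D x y ≤ 1) ∧ ∀ ε : ℝ, 0 < ε → ε < 1 → ∃ h : ℝ,
      Rate (spanN (Le D ε) F) h ∧ Rate (sepN (Le D ε) F) h := by
  obtain ⟨D, hD, h1, h2⟩ := hA2 X (fun R R' => IsClosed R' ∧ (∀ x y, (x, y) ∈ R' → (y, x) ∈ R') ∧
    (∀ x : X, (x, x) ∈ interior R') ∧ R' ⊆ interior R ∧ ∃ h : ℝ,
    Rate (spanN R F) h ∧ Rate (sepN R' F) h)
    (fun R R' h => ⟨h.1, h.2.1, h.2.2.1, h.2.2.2.1⟩)
    (fun η hη => by
      obtain ⟨R, R', h, a1, a2, a3, a4, a5, a6, a7, a8⟩ := hS η hη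
      exact ⟨R, R', ⟨a1, a2, a4, a5, h, a7, a8⟩, a6⟩)
  refine ⟨D, hD, h1, fun ε hε hε1 => ?_⟩
  obtain ⟨R, R', ⟨b1, b2, b3, b4, h, b5, b6⟩, b7, b8⟩ := h2 ε hε hε1
  refine ⟨h, hA3 X F hF R (Le D ε) R' h b1 b3 b7 b8 (fun x y hxy => ?_) b5 b6⟩
  have : D x y ≤ ε := hxy
  change D y x ≤ ε
  rwa [hD.symm y x]

end Pool.Agent.H508R3.WS
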