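import Mathlib
import Pool.Agent.H508R3.WS.Stmts

set_option autoImplicit false

/-! Task A1 of project H508-WEISS (written by helper782): the metric of one level. -/

open Set Filter Topology Metric

namespace Pool.Agent.H508R3.WS.A1

open Pool.Agent.H508R3.WS

section
variable {X : Type} [MetricSpace X]

lemma infDist_symm {R' : Set (X × X)} (hne : R'.Nonempty) (hs : ∀ x y, (x, y) ∈ R' → (y, x) ∈ R')
    (x y : X) : infDist (x, y) R' = infDist (y, x) R' := by
  have key : ∀ x y : X, infDist (x, y) R' ≤ infDist (y, x) R' := by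
    intro x y
    rw [le_infDist hne]
    rintro ⟨a, b⟩ hab
    refine (infDist_le_dist_of_mem (hs a b hab)).trans ?_
    rw [Prod.dist_eq, Prod.dist_eq, max_comm]
  exact le_antisymm (key x y) (key y x)

/-- the correction term -/
noncomputable def ff (R' : Set (X × X)) (r δ : ℝ) (x y : X) : ℝ := δ * min 1 (infDist (x, y) R' / r)

lemma ff_nonneg {R' : Set (X × X)} {r δ : ℝ} (hr : 0 < r) (hδ : 0 < δ) (x y : X) :
    0 ≤ ff R' r δ x y :=
  mul_nonneg hδ.le (le_min zero_le_one (div_nonneg infDist_nonneg hr.le))

lemma ff_le {R' : Set (X × X)} {r δ : ℝ} (hδ : 0 < δ) (x y : X) : ff R' r δ x y ≤ δ := by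
  unfold ff
  calc δ * min 1 (infDist (x, y) R' / r) ≤ δ * 1 := mul_le_mul_of_nonneg_left (min_le_left _ _) hδ.le
    _ = δ := mul_one _

lemma ff_zero {R' : Set (X × X)} {r δ : ℝ} {x y : X} (h : (x, y) ∈ R') : ff R' r δ x y = 0 := by
  unfold ff
  rw [infDist_zero_of_mem h, zero_div, min_eq_right zero_le_one, mul_zero]

lemma ff_lip {R' : Set (X × X)} {r δ : ℝ} (hr : 0 < r) (hδ : 0 < δ) (x y z : X) :
    ff R' r δ x z ≤ ff R' r δ y z + δ / r * dist x y := by
  have h1 : infDist (x, z) R' ≤ infDist (y, z) R' + dist x y := by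
    have h := infDist_le_infDist_add_dist (s := R') (x := (x, z)) (y := (y, z))
    rw [Prod.dist_eq] at h
    simpa using h
  unfold ff
  have h2 : infDist (x, z) R' / r ≤ infDist (y, z) R' / r + dist x y / r := by
    rw [← add_div]
    exact div_le_div_of_nonneg_right h1 hr.le
  have h3 : 0 ≤ dist x y / r := div_nonneg dist_nonneg hr.le
  have h4 : min 1 (infDist (x, z) R' / r) ≤ min 1 (infDist (y, z) R' / r) + dist x y / r := by
    rcases le_total 1 (infDist (y, z) R' / r) with h | h
    · rw [min_eq_left h]
      linarith [min_le_left 1 (infDist (x, z) R' / r)]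
    · rw [min_eq_right h]
      exact (min_le_right _ _).trans h2
  calc δ * min 1 (infDist (x, z) R' / r) ≤ δ * (min 1 (infDist (y, z) R' / r) + dist x y / r) :=
        mul_le_mul_of_nonneg_left h4 hδ.le
    _ = _ := by ring

end

theorem taskA1 : TaskA1 := by
  intro X _ _ R R' hcl hsymm hdiag hsub δ hδ hδ2
  rcases isEmpty_or_nonempty X with hX | hX
  · exact ⟨fun _ _ => 0, 1, 1, one_pos, one_pos, fun x => hX.elim x, fun x => hX.elim x,
      fun x => hX.elim x, fun x => hX.elim x, fun x => hX.elim x, fun x => hX.elim x,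
      fun x => hX.elim x, fun x => hX.elim x, fun x => hX.elim x⟩
  · have hdR : ∀ x : X, (x, x) ∈ R' := fun x => interior_subset (hdiag x)
    have hne : R'.Nonempty := ⟨(hX.some, hX.some), hdR _⟩
    obtain ⟨r, hr, hthick⟩ := hcl.isCompact.exists_thickening_subset_open isOpen_interior hsub
    have hcd : IsCompact (Set.range fun x : X => (x, x)) :=
      isCompact_range (continuous_id.prodMk continuous_id)
    obtain ⟨κ, hκ, hthick2⟩ := hcd.exists_thickening_subset_open (isOpen_interior (s := R')) (by
      rintro _ ⟨x, rfl⟩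
      exact hdiag x)
    have hκ' : ∀ x y : X, dist x y < κ → (x, y) ∈ R' := by
      intro x y hxy
      refine interior_subset (hthick2 ?_)
      rw [mem_thickening_iff]
      refine ⟨(x, x), ⟨x, rfl⟩, ?_⟩
      rw [Prod.dist_eq, dist_self, dist_comm y x]
      exact max_lt hκ hxy
    have hr' : ∀ x y : X, (x, y) ∉ R → r ≤ infDist (x, y) R' := by
      intro x y hxy
      by_contra hcon
      push Not at hcon
      exact hxy (interior_subset (hthick ((mem_thickening_iff_infDist_lt hne).2 hcon)))
    have h1δ : 0 < 1 - δ := by linarith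
    set K : ℝ := max (2 / κ) (δ / r / (1 - δ)) with hK
    have hK1 : 2 / κ ≤ K := le_max_left _ _
    have hK2 : δ / r / (1 - δ) ≤ K := le_max_right _ _
    have hK0 : 0 < K := lt_of_lt_of_le (by positivity) hK1
    have hK3 : δ / r ≤ (1 - δ) * K := by
      rw [div_le_iff₀ h1δ] at hK2
      linarith
    have hK4 : 2 ≤ K * κ := by
      rw [div_le_iff₀ hκ] at hK1
      exact hK1
    set f := ff R' r δ with hf
    have f0 : ∀ x y, 0 ≤ f x y := ff_nonneg hr hδ
    have f1 : ∀ x y, f x y ≤ δ := ff_le hδ
    have fs : ∀ x y, f x y = f y x := fun x y => by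
      rw [hf]; unfold ff; rw [infDist_symm hne hsymm]
    have fl : ∀ x y z, f x z ≤ f y z + δ / r * dist x y := ff_lip hr hδ
    have fz : ∀ x y, (x, y) ∈ R' → f x y = 0 := fun x y h => ff_zero h
    have m0 : ∀ x y : X, 0 ≤ min 1 (K * dist x y) := fun x y =>
      le_min zero_le_one (mul_nonneg hK0.le dist_nonneg)
    refine ⟨fun x y => (1 - δ) * min 1 (K * dist x y) + f x y, (1 - δ) * K + δ / r, K, by positivity,
      hK0, ?_, ?_, ?_, ?_, ?_, ?_, ?_, ?_, ?_⟩
    · intro x
      simp only [dist_self, mul_zero, fz x x (hdR x), add_zero]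
      rw [min_eq_right zero_le_one, mul_zero]
    · intro x y
      simp only
      rw [dist_comm x y, fs x y]
    · intro x y z
      simp only
      have hd0 : 0 ≤ dist x y := dist_nonneg
      have hd1 : 0 ≤ dist y z := dist_nonneg
      have hle1 : (1 - δ) * min 1 (K * dist x z) ≤ 1 - δ := by
        calc (1 - δ) * min 1 (K * dist x z) ≤ (1 - δ) * 1 :=
              mul_le_mul_of_nonneg_left (min_le_left _ _) h1δ.le
          _ = 1 - δ := mul_one _
      rcases le_or_gt 1 (K * dist x y) with h1 | h1 <;> rcases le_or_gt 1 (K * dist y z) with h2 | h2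
      · rw [min_eq_left h1, min_eq_left h2]
        have := f1 x z
        have := f0 x y
        have := f0 y z
        linarith
      · rw [min_eq_left h1, min_eq_right h2.le]
        have h3 := fl z y x
        rw [fs z x, fs y x, dist_comm z y] at h3
        have h4 : δ / r * dist y z ≤ (1 - δ) * K * dist y z := mul_le_mul_of_nonneg_right hK3 hd1
        have := f0 y z
        nlinarith
      · rw [min_eq_right h1.le, min_eq_left h2]
        have h3 := fl x y z
        have h4 : δ / r * dist x y ≤ (1 - δ) * K * dist x y := mul_le_mul_of_nonneg_right hK3 hd0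
        have := f0 x y
        nlinarith
      · rw [min_eq_right h1.le, min_eq_right h2.le]
        have h5 : dist x z ≤ dist x y + dist y z := dist_triangle x y z
        have h6 : dist x z < κ := by
          have : K * dist x z < K * κ := by nlinarith
          exact lt_of_mul_lt_mul_left this hK0.le
        rw [fz x z (hκ' x z h6)]
        have h7 : min 1 (K * dist x z) ≤ K * dist x y + K * dist y z := by
          refine (min_le_right _ _).trans ?_
          rw [← mul_add]
          exact mul_le_mul_of_nonneg_left h5 hK0.le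
        have h8 := mul_le_mul_of_nonneg_left h7 h1δ.le
        have := f0 x y
        have := f0 y z
        linarith
    · intro x y
      exact add_nonneg (mul_nonneg h1δ.le (m0 x y)) (f0 x y)
    · intro x y
      have h1 : (1 - δ) * min 1 (K * dist x y) ≤ (1 - δ) * 1 :=
        mul_le_mul_of_nonneg_left (min_le_left _ _) h1δ.le
      have h2 := f1 x y
      show (1 - δ) * min 1 (K * dist x y) + f x y ≤ 1
      linarith
    · intro x y hxy
      have hR' : (x, y) ∉ R' := fun h => hxy (interior_subset (hsub h))
      have h1 : κ ≤ dist x y := by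
        by_contra hcon
        push Not at hcon
        exact hR' (hκ' x y hcon)
      have h2 : 1 ≤ K * dist x y := by nlinarith
      have h3 : f x y = δ := by
        rw [hf]
        unfold ff
        rw [min_eq_left ((one_le_div hr).2 (hr' x y hxy)), mul_one]
      show (1 - δ) * min 1 (K * dist x y) + f x y = 1
      rw [min_eq_left h2, h3]
      ring
    · intro x y hxy
      have h1 : (1 - δ) * min 1 (K * dist x y) ≤ (1 - δ) * 1 :=
        mul_le_mul_of_nonneg_left (min_le_left _ _) h1δ.le
      show (1 - δ) * min 1 (K * dist x y) + f x y ≤ 1 - δ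
      rw [fz x y hxy]
      linarith
    · intro x y
      have h1 : (1 - δ) * min 1 (K * dist x y) ≤ (1 - δ) * (K * dist x y) :=
        mul_le_mul_of_nonneg_left (min_le_right _ _) h1δ.le
      have h2 := fl x y y
      rw [fz y y (hdR y)] at h2
      show (1 - δ) * min 1 (K * dist x y) + f x y ≤ ((1 - δ) * K + δ / r) * dist x y
      linarith
    · intro x y
      have := f0 x y
      show (1 - δ) * min 1 (K * dist x y) ≤ (1 - δ) * min 1 (K * dist x y) + f x y
      linarith

end Pool.Agent.H508R3.WS.A1
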