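import Pool.Agent.H508R3.WS.Stmts

/-! Task TaskD of the project H508-WEISS (helper265). -/

set_option autoImplicit false

open Filter Topology

namespace Pool.Agent.H508R3.WS

theorem TD_sInf (A B : Set ℕ) (h1 : ∀ a ∈ A, ∃ b ∈ B, b ≤ a) (h2 : ∀ b ∈ B, ∃ a ∈ A, a ≤ b) :
    sInf A = sInf B := by
  rcases A.eq_empty_or_nonempty with hA | hA
  · have hB : B = ∅ := by
      rw [Set.eq_empty_iff_forall_notMem]
      intro b hb
      obtain ⟨a, ha, -⟩ := h2 b hb
      rw [hA] at ha
      exact ha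
    rw [hA, hB]
  · obtain ⟨b, hb, hba⟩ := h1 _ (Nat.sInf_mem hA)
    obtain ⟨a, ha, hab⟩ := h2 _ (Nat.sInf_mem ⟨b, hb⟩)
    exact le_antisymm ((Nat.sInf_le ha).trans hab) ((Nat.sInf_le hb).trans hba)

theorem TD_scale {X : Type} [MetricSpace X] [CompactSpace X]
    (Y : ℕ → Type) [∀ n, MetricSpace (Y n)]
    (π : ∀ n, X → Y n) (θ : ∀ n, Y (n + 1) → Y n)
    (hπ : ∀ n, Continuous (π n)) (hθπ : ∀ n x, π n x = θ n (π (n + 1) x))
    (hsep : ∀ x y, (∀ n, π n x = π n y) → x = y) (η : ℝ) (hη : 0 < η) :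
    ∃ (n : ℕ) (δ : ℝ), 0 < δ ∧ ∀ x y, dist (π n x) (π n y) < δ → dist x y < η := by
  set K : Set (X × X) := {q | η ≤ dist q.1 q.2} with hK
  have hKc : IsCompact K := (isClosed_le continuous_const
    (continuous_fst.dist continuous_snd)).isCompact
  set U : ℕ → Set (X × X) := fun n => {q | π n q.1 ≠ π n q.2} with hU
  have hUo : ∀ n, IsOpen (U n) := fun n =>
    isOpen_ne_fun ((hπ n).comp continuous_fst) ((hπ n).comp continuous_snd)
  have hUm : Monotone U := by
    refine monotone_nat_of_le_succ fun n q hq h => hq ?_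
    rw [hθπ n q.1, hθπ n q.2, h]
  have hcov : K ⊆ ⋃ n, U n := by
    intro q hq
    by_contra hcon
    simp only [Set.mem_iUnion, not_exists, hU, Set.mem_ofPred_eq, not_not] at hcon
    have h1 := hsep q.1 q.2 hcon
    have h2 : η ≤ dist q.1 q.2 := hq
    rw [h1, dist_self] at h2
    linarith
  obtain ⟨n, hn⟩ := hKc.elim_directed_cover U hUo hcov (hUm.directed_le)
  rcases K.eq_empty_or_nonempty with hKe | hKn
  · refine ⟨0, 1, one_pos, fun x y _ => ?_⟩
    by_contra hcon
    have : (x, y) ∈ K := not_lt.1 hcon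
    rw [hKe] at this
    exact this
  · obtain ⟨q, hq, hmin⟩ := hKc.exists_isMinOn hKn (f := fun q : X × X => dist (π n q.1) (π n q.2))
      (((hπ n).comp continuous_fst).dist ((hπ n).comp continuous_snd)).continuousOn
    refine ⟨n, dist (π n q.1) (π n q.2), dist_pos.2 (hn hq), fun x y hxy => ?_⟩
    by_contra hcon
    have : (x, y) ∈ K := not_lt.1 hcon
    exact absurd hxy (not_lt.2 (hmin this))

theorem taskD : TaskD := by
  classical
  intro X _ _ F hF Y _ _ G π θ hG hπ hsur hθ hsemi hθπ hsep hst η hη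
  obtain ⟨n, δ, hδ, hscale⟩ := TD_scale Y π θ hπ hθπ hsep η hη
  obtain ⟨R, R', h, a1, a2, a3, a4, a5, a6, a7, a8⟩ := hst n δ hδ
  set P : X × X → Y n × Y n := Prod.map (π n) (π n) with hP
  have hPc : Continuous P := (hπ n).prodMap (hπ n)
  have hit : ∀ t x, π n (F^[t] x) = (G n)^[t] (π n x) := by
    intro t x
    exact (Function.Semiconj.iterate_right (f := π n) (fun x => hsemi n x) t) x
  obtain ⟨σ, hσ⟩ := (hsur n).hasRightInverse
  have hσi : Function.Injective σ := hσ.injective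
  have hdiag : ∀ y : Y n, (y, y) ∈ R' := fun y => interior_subset (a4 y)
  have hsepN : sepN (P ⁻¹' R') F = sepN R' (G n) := by
    funext T
    unfold sepN
    congr 1
    ext k
    constructor
    · rintro ⟨E, hE, hk⟩
      have hmem : ∀ x ∈ E, ∀ y ∈ E, x ≠ y →
          ∃ t < T, ((G n)^[t] (π n x), (G n)^[t] (π n y)) ∉ R' := by
        intro x hx y hy hxy
        obtain ⟨t, ht, h1⟩ := hE x hx y hy hxy
        refine ⟨t, ht, fun h2 => h1 ?_⟩
        change (π n (F^[t] x), π n (F^[t] y)) ∈ R'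
        rwa [hit, hit]
      refine ⟨E.image (π n), ?_, ?_⟩
      · intro u hu v hv huv
        obtain ⟨x, hx, rfl⟩ := Finset.mem_image.1 hu
        obtain ⟨y, hy, rfl⟩ := Finset.mem_image.1 hv
        exact hmem x hx y hy (fun h => huv (by rw [h]))
      · rw [Finset.card_image_of_injOn, hk]
        intro x hx y hy hxy
        by_contra hne
        obtain ⟨t, -, h1⟩ := hmem x hx y hy hne
        apply h1
        have hxy' : π n x = π n y := hxy
        rw [hxy']
        exact hdiag _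
    · rintro ⟨E, hE, hk⟩
      refine ⟨E.image σ, ?_, ?_⟩
      · intro u hu v hv huv
        obtain ⟨x, hx, rfl⟩ := Finset.mem_image.1 hu
        obtain ⟨y, hy, rfl⟩ := Finset.mem_image.1 hv
        obtain ⟨t, ht, h1⟩ := hE x hx y hy (fun h => huv (by rw [h]))
        refine ⟨t, ht, fun h2 => h1 ?_⟩
        have h3 : (π n (F^[t] (σ x)), π n (F^[t] (σ y))) ∈ R' := h2
        rwa [hit, hit, hσ, hσ] at h3
      · rw [Finset.card_image_of_injective _ hσi, hk]
  have hspanN : spanN (P ⁻¹' R) F = spanN R (G n) := by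
    funext T
    unfold spanN
    refine TD_sInf _ _ ?_ ?_
    · rintro a ⟨S, hS, rfl⟩
      refine ⟨_, ⟨S.image (π n), ?_, rfl⟩, Finset.card_image_le⟩
      intro y
      obtain ⟨s, hs, h1⟩ := hS (σ y)
      refine ⟨π n s, Finset.mem_image_of_mem _ hs, fun t ht => ?_⟩
      have h2 : (π n (F^[t] (σ y)), π n (F^[t] s)) ∈ R := h1 t ht
      rwa [hit, hit, hσ] at h2
    · rintro b ⟨S, hS, rfl⟩
      refine ⟨_, ⟨S.image σ, ?_, rfl⟩, Finset.card_image_le⟩
      intro x
      obtain ⟨s, hs, h1⟩ := hS (π n x)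
      refine ⟨σ s, Finset.mem_image_of_mem _ hs, fun t ht => ?_⟩
      change (π n (F^[t] x), π n (F^[t] (σ s))) ∈ R
      rw [hit, hit, hσ]
      exact h1 t ht
  refine ⟨P ⁻¹' R, P ⁻¹' R', h, a1.preimage hPc, fun x y hxy => a2 _ _ hxy,
    fun x y hxy => a3 _ _ hxy, fun x => ?_, ?_, fun x y hxy => hscale x y (a6 _ _ hxy), ?_, ?_⟩
  · exact preimage_interior_subset_interior_preimage hPc (a4 (π n x))
  · intro q hq
    exact preimage_interior_subset_interior_preimage hPc (a5 hq)
  · rw [hspanN]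
    exact a7
  · rw [hsepN]
    exact a8

end Pool.Agent.H508R3.WS
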